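import Pool.Agent.H11.EL.Targets

/-!
# Module RA: the radical of a proper subgroup of the derived group
-/

set_option autoImplicit false

open scoped commutatorElement

namespace Pool.Agent.H47.EL

open Pool.Agent.H11.EL

/-- the subgroup of the elements of `M` whose commutators with `M` lie in `D` -/
theorem rad_sub {G : Type} [Group G] (M D : Subgroup G) (hM : M.Normal)
    (hc : ∀ x ∈ M, ∀ y ∈ M, ∀ g : G, ⁅x, y⁆ * g = g * ⁅x, y⁆) :
    ∃ L : Subgroup G, L.Normal ∧ L ≤ M ∧ (∀ m, m ∈ L ↔ m ∈ M ∧ ∀ m' ∈ M, ⁅m, m'⁆ ∈ D) := by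
  have hmul : ∀ m n m' : G, ⁅m * n, m'⁆ = m * ⁅n, m'⁆ * m⁻¹ * ⁅m, m'⁆ := by
    intro m n m'
    simp only [commutatorElement_def]
    group
  refine ⟨{ carrier := {m | m ∈ M ∧ ∀ m' ∈ M, ⁅m, m'⁆ ∈ D}
            mul_mem' := ?_
            one_mem' := ?_
            inv_mem' := ?_ }, ⟨?_⟩, ?_, ?_⟩
  · rintro a b ⟨ha, ha'⟩ ⟨hb, hb'⟩
    refine ⟨M.mul_mem ha hb, fun m' hm' => ?_⟩
    rw [hmul, ← hc b hb m' hm' a, mul_assoc, mul_assoc, mul_inv_cancel_left]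
    exact D.mul_mem (hb' m' hm') (ha' m' hm')
  · refine ⟨M.one_mem, fun m' _ => ?_⟩
    rw [commutatorElement_one_left]
    exact D.one_mem
  · rintro a ⟨ha, ha'⟩
    refine ⟨M.inv_mem ha, fun m' hm' => ?_⟩
    have h1 : ⁅a⁻¹, m'⁆ = a⁻¹ * (⁅a, m'⁆)⁻¹ * a := by
      simp only [commutatorElement_def]
      group
    have h2 : ⁅a⁻¹, m'⁆ = (⁅a, m'⁆)⁻¹ := by
      rw [h1, commutatorElement_inv, mul_assoc, hc m' hm' a ha a, inv_mul_cancel_left]
    rw [h2]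
    exact D.inv_mem (ha' m' hm')
  · rintro n ⟨hn, hn'⟩ g
    refine ⟨hM.conj_mem n hn g, fun m' hm' => ?_⟩
    have hg : g⁻¹ * m' * g ∈ M := by
      have := hM.conj_mem m' hm' g⁻¹
      rwa [inv_inv] at this
    have h1 : ⁅g * n * g⁻¹, m'⁆ = g * ⁅n, g⁻¹ * m' * g⁆ * g⁻¹ := by
      simp only [commutatorElement_def]
      group
    rw [h1, ← hc n hn _ hg g, mul_inv_cancel_right]
    exact hn' _ hg
  · intro m hm
    exact hm.1
  · intro m
    exact Iff.rfl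

theorem pf_ra : T_RA := by
  intro G _ M Z D hCF hZ hD m hm hmm
  have hc : ∀ x ∈ M, ∀ y ∈ M, ∀ g : G, ⁅x, y⁆ * g = g * ⁅x, y⁆ := by
    intro x hx y hy g
    exact hZ _ (hCF.cM (Subgroup.commutator_mem_commutator hx hy)) g
  obtain ⟨L, hLn, hLM, hL⟩ := rad_sub M D hCF.nM hc
  have hne : L ≠ M := by
    intro h
    have h1 : ⁅M, M⁆ ≤ D := by
      rw [Subgroup.commutator_le]
      intro g₁ h1 g₂ h2
      rw [← h] at h1
      exact ((hL g₁).1 h1).2 g₂ h2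
    exact absurd h1 (not_le_of_gt hD)
  exact hCF.min L hLn hLM hne ((hL m).2 ⟨hm, hmm⟩)

end Pool.Agent.H47.EL
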