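import Pool.Agent.H11.EL.Targets

/-!
# Module ST: structure of a finite soluble group which is not nilpotent
-/

set_option autoImplicit false

open scoped commutatorElement

namespace Pool.Agent.H47.EL

open Pool.Agent.H11.EL

/-- iterated commutators with the whole group -/
def itc {G : Type} [Group G] (L : Subgroup G) : ℕ → Subgroup G
  | 0 => L
  | j + 1 => ⁅itc L j, (⊤ : Subgroup G)⁆

theorem itc_succ {G : Type} [Group G] (L : Subgroup G) (j : ℕ) :
    itc L (j + 1) = ⁅itc L j, (⊤ : Subgroup G)⁆ := rfl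

theorem itc_normal {G : Type} [Group G] (L : Subgroup G) (hL : L.Normal) (j : ℕ) :
    (itc L j).Normal := by
  induction j with
  | zero => exact hL
  | succ j ih =>
    have := ih
    rw [itc_succ]
    infer_instance

theorem itc_anti {G : Type} [Group G] (L : Subgroup G) (hL : L.Normal) : Antitone (itc L) := by
  refine antitone_nat_of_succ_le fun j => ?_
  have := itc_normal L hL j
  rw [itc_succ]
  exact Subgroup.commutator_le_left _ _

theorem le_ucs_succ {G : Type} [Group G] (X : Subgroup G) (k : ℕ)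
    (h : ⁅X, (⊤ : Subgroup G)⁆ ≤ Subgroup.upperCentralSeries G k) :
    X ≤ Subgroup.upperCentralSeries G (k + 1) := by
  intro x hx
  rw [Subgroup.mem_upperCentralSeries_succ_iff]
  intro y
  exact h (Subgroup.commutator_mem_commutator hx (Subgroup.mem_top y))

theorem le_ucs_of_itc {G : Type} [Group G] (L : Subgroup G) (j : ℕ) :
    ∀ i, itc L j ≤ Subgroup.upperCentralSeries G i →
      L ≤ Subgroup.upperCentralSeries G (i + j) := by
  induction j with
  | zero => intro i h; exact h
  | succ j ih =>
    intro i h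
    rw [itc_succ] at h
    have h1 := ih (i + 1) (le_ucs_succ _ _ h)
    have h2 : i + (j + 1) = i + 1 + j := by omega
    rw [h2]
    exact h1

theorem eq_bot_of_le {G : Type} [Group G] (X : Subgroup G) (hX : ⁅X, (⊤ : Subgroup G)⁆ = X)
    (k : ℕ) (h : X ≤ Subgroup.upperCentralSeries G k) : X = ⊥ := by
  induction k with
  | zero =>
    rw [Subgroup.upperCentralSeries_zero] at h
    exact le_bot_iff.1 h
  | succ k ih =>
    refine ih ?_
    rw [← hX]
    exact (Subgroup.commutator_mono h le_rfl).trans
      (Subgroup.commutator_upperCentralSeries_top_le G k)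

/-- the iterated commutators of a normal subgroup become stationary -/
theorem itc_stat {G : Type} [Group G] [Finite G] (L : Subgroup G) (hL : L.Normal) :
    ∃ j, ⁅itc L j, (⊤ : Subgroup G)⁆ = itc L j := by
  obtain ⟨n, hn⟩ := WellFoundedLT.antitone_chain_condition (itc_anti L hL)
  exact ⟨n, (hn (n + 1) (Nat.le_succ n)).symm⟩

/-- the upper central series commutes with `M` -/
theorem ucs_comm {G : Type} [Group G] (M : Subgroup G) (hM : M.Normal)
    (htop : ⁅M, (⊤ : Subgroup G)⁆ = M) (k : ℕ) :
    ⁅Subgroup.upperCentralSeries G k, M⁆ = ⊥ := by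
  induction k with
  | zero =>
    rw [Subgroup.upperCentralSeries_zero]
    exact Subgroup.commutator_bot_left M
  | succ k ih =>
    obtain ⟨X, hX⟩ : ∃ X : Subgroup G, X = ⁅Subgroup.upperCentralSeries G (k + 1), M⁆ := ⟨_, rfl⟩
    rw [← hX]
    have hXn : X.Normal := by
      rw [hX]
      infer_instance
    obtain ⟨Y, hY⟩ : ∃ Y : Subgroup G, Y = ⁅X, (⊤ : Subgroup G)⁆ := ⟨_, rfl⟩
    have hYn : Y.Normal := by
      rw [hY]
      infer_instance
    have hYX : Y ≤ X := by
      rw [hY]
      exact Subgroup.commutator_le_left _ _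
    have hXY : X ≤ Y := by
      obtain ⟨π, hπ⟩ : ∃ π : G →* G ⧸ Y, π = QuotientGroup.mk' Y := ⟨_, rfl⟩
      have h1 : ⁅⁅(Subgroup.upperCentralSeries G (k + 1)).map π, M.map π⁆,
          (⊤ : Subgroup G).map π⁆ = ⊥ := by
        rw [← Subgroup.map_commutator, ← Subgroup.map_commutator, ← hX, ← hY, hπ]
        exact QuotientGroup.map_mk'_self Y
      have h2 : ⁅⁅(⊤ : Subgroup G).map π, (Subgroup.upperCentralSeries G (k + 1)).map π⁆,
          M.map π⁆ = ⊥ := by
        rw [← Subgroup.map_commutator, ← Subgroup.map_commutator]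
        have h3 : ⁅⁅(⊤ : Subgroup G), Subgroup.upperCentralSeries G (k + 1)⁆, M⁆ = ⊥ := by
          rw [eq_bot_iff, ← ih]
          refine Subgroup.commutator_mono ?_ le_rfl
          rw [Subgroup.commutator_comm]
          exact Subgroup.commutator_upperCentralSeries_top_le G k
        rw [h3, Subgroup.map_bot]
      have h4 := Subgroup.commutator_commutator_eq_bot_of_rotate h2 h1
      rw [← Subgroup.map_commutator, ← Subgroup.map_commutator, htop, Subgroup.commutator_comm,
        ← hX, hπ] at h4
      intro x hx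
      have h5 : QuotientGroup.mk' Y x ∈ X.map (QuotientGroup.mk' Y) := ⟨x, hx, rfl⟩
      rw [h4, Subgroup.mem_bot] at h5
      exact (QuotientGroup.eq_one_iff x).1 h5
    have hXX : ⁅X, (⊤ : Subgroup G)⁆ = X := by
      rw [← hY]
      exact le_antisymm hYX hXY
    refine eq_bot_of_le X hXX (k + 1) ?_
    rw [hX]
    exact Subgroup.commutator_le_left _ _

theorem pf_st : T_ST := by
  intro G _ _ hsol hnil
  -- existence of a nontrivial normal subgroup equal to its commutator with the whole group
  have hne : ({X : Subgroup G | X.Normal ∧ X ≠ ⊥ ∧ ⁅X, (⊤ : Subgroup G)⁆ = X}).Nonempty := by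
    obtain ⟨j, hj⟩ := itc_stat (⊤ : Subgroup G) inferInstance
    refine ⟨itc ⊤ j, itc_normal _ inferInstance j, ?_, hj⟩
    intro hbot
    refine hnil ⟨⟨0 + j, ?_⟩⟩
    rw [eq_top_iff]
    refine le_ucs_of_itc ⊤ j 0 ?_
    rw [hbot]
    exact bot_le
  obtain ⟨M, ⟨hMn, hMbot, hMtop⟩, hMmin⟩ :=
    (wellFounded_lt (α := Subgroup G)).has_min _ hne
  obtain ⟨k, hk⟩ := WellFoundedGT.monotone_chain_condition
    (⟨Subgroup.upperCentralSeries G, Subgroup.upperCentralSeries_mono G⟩ : ℕ →o Subgroup G)
  have hk' : ∀ j, Subgroup.upperCentralSeries G j ≤ Subgroup.upperCentralSeries G k := by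
    intro j
    rcases le_total k j with h | h
    · exact (hk j h).ge
    · exact Subgroup.upperCentralSeries_mono G h
  have hmin : ∀ L : Subgroup G, L.Normal → L ≤ M → L ≠ M →
      L ≤ M ⊓ Subgroup.upperCentralSeries G k := by
    intro L hL hLM hne
    refine le_inf hLM ?_
    obtain ⟨j, hj⟩ := itc_stat L hL
    have h1 : itc L j ≤ L := itc_anti L hL (Nat.zero_le j)
    have h2 : itc L j < M := lt_of_le_of_lt h1 (lt_of_le_of_ne hLM hne)
    have h3 : itc L j = ⊥ := by
      by_contra h
      exact hMmin _ ⟨itc_normal L hL j, h, hj⟩ h2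
    refine (le_ucs_of_itc L j 0 ?_).trans (hk' _)
    rw [h3]
    exact bot_le
  have hucs : (Subgroup.upperCentralSeries G k).Normal := inferInstance
  refine ⟨M, M ⊓ Subgroup.upperCentralSeries G k, ?_⟩
  refine ⟨hMn, inferInstance, ?_, hMtop, ?_, hmin, ?_⟩
  · refine lt_of_le_of_ne inf_le_left ?_
    intro h
    exact hMbot (eq_bot_of_le M hMtop k (inf_eq_left.1 h))
  · refine hmin _ inferInstance (Subgroup.commutator_le_left _ _) ?_
    intro h
    have hall : ∀ n, M ≤ derivedSeries G n := by
      intro n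
      induction n with
      | zero => exact le_top
      | succ n ih =>
        rw [derivedSeries_succ]
        calc M = ⁅M, M⁆ := h.symm
          _ ≤ _ := Subgroup.commutator_mono ih ih
    obtain ⟨n, hn⟩ := hsol.solvable
    exact hMbot (le_bot_iff.1 (hn ▸ hall n))
  · intro z hz m hm
    have h1 := ucs_comm M hMn hMtop k
    have h2 : ⁅z, m⁆ ∈ (⁅Subgroup.upperCentralSeries G k, M⁆ : Subgroup G) :=
      Subgroup.commutator_mem_commutator hz.2 hm
    rw [h1, Subgroup.mem_bot, commutatorElement_eq_one_iff_mul_comm] at h2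
    exact h2

end Pool.Agent.H47.EL
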