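import Pool.Agent.H11.EL.Targets
import Pool.Agent.H47.EL.RA

/-!
# Module SZ: the order of `M`
-/

set_option autoImplicit false

open scoped commutatorElement

namespace Pool.Agent.H47.EL

open Pool.Agent.H11.EL

/-- commutators with generators -/
theorem gen_le {G : Type} [Group G] (M R : Subgroup G) (hM : M.Normal)
    (htop : ⁅M, (⊤ : Subgroup G)⁆ = M) (S : Set G) (hS : Subgroup.closure S = ⊤)
    (hR : ∀ x ∈ S, ∀ m ∈ M, ⁅m, x⁆ ∈ R) : M ≤ R := by
  have hall : ∀ g : G, ∀ m ∈ M, ⁅m, g⁆ ∈ R := by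
    intro g
    have hg : g ∈ Subgroup.closure S := by rw [hS]; exact Subgroup.mem_top g
    refine Subgroup.closure_induction (p := fun g _ => ∀ m ∈ M, ⁅m, g⁆ ∈ R) ?_ ?_ ?_ ?_ hg
    · intro x hx
      exact hR x hx
    · intro m _
      rw [commutatorElement_one_right]
      exact R.one_mem
    · intro x y _ _ hx hy m hm
      have h1 : ⁅m, x * y⁆ = ⁅m, x⁆ * ((⁅⁅m, y⁆, x⁆)⁻¹ * ⁅m, y⁆) := by
        simp only [commutatorElement_def]
        group
      have hmy : ⁅m, y⁆ ∈ M := by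
        rw [commutatorElement_def, mul_assoc, mul_assoc]
        refine M.mul_mem hm ?_
        rw [← mul_assoc]
        exact hM.conj_mem _ (M.inv_mem hm) y
      rw [h1]
      exact R.mul_mem (hx m hm) (R.mul_mem (R.inv_mem (hx _ hmy)) (hy m hm))
    · intro x _ hx m hm
      have h1 : ⁅m, x⁻¹⁆ = (⁅x⁻¹ * m * x, x⁆)⁻¹ := by
        simp only [commutatorElement_def]
        group
      have hmx : x⁻¹ * m * x ∈ M := by
        have := hM.conj_mem m hm x⁻¹
        rwa [inv_inv] at this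
      rw [h1]
      exact R.inv_mem (hx _ hmx)
  rw [← htop, Subgroup.commutator_le]
  intro m hm g _
  exact hall g m hm

/-- the order of the derived group of `M` -/
theorem card_der {G : Type} [Group G] [Finite G] (M Z : Subgroup G) (hCF : CF M Z)
    (hZ : ∀ z ∈ Z, ∀ g : G, z * g = g * z) :
    Nat.card (⁅M, M⁆ : Subgroup G) ≤ Z.relIndex M := by
  have hc : ∀ x ∈ M, ∀ y ∈ M, ∀ g : G, ⁅x, y⁆ * g = g * ⁅x, y⁆ := by
    intro x hx y hy g
    exact hZ _ (hCF.cM (Subgroup.commutator_mem_commutator hx hy)) g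
  obtain ⟨m0, hm0, hm0Z⟩ := SetLike.exists_of_lt hCF.lt
  obtain ⟨φ, hφ⟩ : ∃ φ : M →* G, ∀ m : M, φ m = ⁅m0, (m : G)⁆ := by
    refine ⟨MonoidHom.mk' (fun m : M => ⁅m0, (m : G)⁆) ?_, fun m => rfl⟩
    intro a b
    have h1 : ⁅m0, ((a * b : M) : G)⁆ = ⁅m0, (a : G)⁆ * (a * ⁅m0, (b : G)⁆ * (a : G)⁻¹) := by
      rw [Subgroup.coe_mul]
      simp only [commutatorElement_def]
      group
    rw [h1, ← hc m0 hm0 b b.2 a, mul_inv_cancel_right]
  obtain ⟨L, hLn, hLM, hL⟩ := rad_sub M φ.range hCF.nM hc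
  have hm0L : m0 ∈ L := by
    rw [hL]
    refine ⟨hm0, fun m' hm' => ?_⟩
    exact ⟨⟨m', hm'⟩, hφ _⟩
  have hLeq : L = M := by
    by_contra hne
    exact hm0Z (hCF.min L hLn hLM hne hm0L)
  have hle : ⁅M, M⁆ ≤ φ.range := by
    rw [Subgroup.commutator_le]
    intro g₁ h1 g₂ h2
    rw [← hLeq] at h1
    exact ((hL g₁).1 h1).2 g₂ h2
  have h1 : Nat.card (⁅M, M⁆ : Subgroup G) ≤ Nat.card φ.range := Subgroup.card_le_of_le hle
  refine h1.trans ?_
  rw [← Subgroup.index_ker]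
  refine Subgroup.index_antitone ?_
  intro z hz
  rw [MonoidHom.mem_ker, hφ, commutatorElement_eq_one_iff_mul_comm]
  exact (hZ z (Subgroup.mem_subgroupOf.1 hz) m0).symm

/-- the order of the abelianization of `M` -/
theorem card_ab {G : Type} [Group G] [Finite G] (M Z : Subgroup G) (hCF : CF M Z)
    (hZ : ∀ z ∈ Z, ∀ g : G, z * g = g * z) (d : ℕ) (s : Fin d → G)
    (hs : Subgroup.closure (Set.range s) = ⊤) :
    Nat.card (Abelianization M) ≤ Z.relIndex M ^ d := by
  have := hCF.nM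
  have : (Z.subgroupOf M).Normal := ⟨fun n hn g => by
    rw [Subgroup.mem_subgroupOf] at hn ⊢
    exact hCF.nZ.conj_mem _ hn _⟩
  have hmem : ∀ (j : Fin d) (m : M), ⁅(m : G), s j⁆ ∈ M := by
    intro j m
    rw [commutatorElement_def, mul_assoc, mul_assoc]
    refine M.mul_mem m.2 ?_
    rw [← mul_assoc]
    exact hCF.nM.conj_mem _ (M.inv_mem m.2) (s j)
  obtain ⟨f, hf⟩ : ∃ f : Fin d → (M →* Abelianization M), ∀ (j : Fin d) (m : M),
      f j m = Abelianization.of ⟨⁅(m : G), s j⁆, hmem j m⟩ := by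
    refine ⟨fun j => MonoidHom.mk' (fun m : M => Abelianization.of ⟨⁅(m : G), s j⁆, hmem j m⟩) ?_,
      fun j m => rfl⟩
    intro a b
    have h1 : (⟨⁅((a * b : M) : G), s j⁆, hmem j (a * b)⟩ : M) =
        a * ⟨⁅(b : G), s j⁆, hmem j b⟩ * a⁻¹ * ⟨⁅(a : G), s j⁆, hmem j a⟩ := by
      apply Subtype.ext
      simp only [Subgroup.coe_mul, Subgroup.coe_inv, commutatorElement_def]
      group
    rw [h1, map_mul, map_mul, map_mul, map_inv, mul_comm (Abelianization.of a),
      mul_inv_cancel_right, mul_comm]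
  have hker : ∀ j : Fin d, Z.subgroupOf M ≤ (f j).ker := by
    intro j z hz
    rw [MonoidHom.mem_ker, hf]
    have h1 : (⟨⁅(z : G), s j⁆, hmem j z⟩ : M) = 1 := by
      apply Subtype.ext
      change ⁅(z : G), s j⁆ = 1
      rw [commutatorElement_eq_one_iff_mul_comm]
      exact hZ z (Subgroup.mem_subgroupOf.1 hz) (s j)
    rw [h1, map_one]
  obtain ⟨Φ, hΦ⟩ : ∃ Φ : (Fin d → M ⧸ Z.subgroupOf M) →* Abelianization M,
      ∀ x, Φ x = ∏ j, QuotientGroup.lift (Z.subgroupOf M) (f j) (hker j) (x j) := by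
    refine ⟨∏ j, (QuotientGroup.lift (Z.subgroupOf M) (f j) (hker j)).comp
      (Pi.evalMonoidHom (fun _ : Fin d => M ⧸ Z.subgroupOf M) j), fun x => ?_⟩
    rw [MonoidHom.finsetProd_apply]
    rfl
  have hle : M ≤ (Φ.range.comap Abelianization.of).map M.subtype := by
    refine gen_le M _ hCF.nM hCF.top _ hs ?_
    rintro x ⟨j, rfl⟩ m hm
    refine ⟨⟨⁅m, s j⁆, hmem j ⟨m, hm⟩⟩, ?_, rfl⟩
    refine ⟨Pi.mulSingle j (QuotientGroup.mk' (Z.subgroupOf M) ⟨m, hm⟩), ?_⟩
    rw [hΦ, Finset.prod_eq_single j]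
    · rw [Pi.mulSingle_eq_same]
      exact hf j ⟨m, hm⟩
    · intro i _ hij
      rw [Pi.mulSingle_eq_of_ne hij, map_one]
    · intro h
      exact absurd (Finset.mem_univ j) h
  have hsurj : Function.Surjective Φ := by
    intro a
    obtain ⟨y, rfl⟩ := QuotientGroup.mk_surjective a
    obtain ⟨y', hy', hyy⟩ := hle y.2
    have : y' = y := Subtype.ext hyy
    rw [this] at hy'
    exact hy'
  have h1 := Nat.card_le_card_of_surjective Φ hsurj
  rw [Nat.card_fun, Nat.card_eq_fintype_card (α := Fin d), Fintype.card_fin] at h1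
  exact h1

theorem pf_sz : T_SZ := by
  intro G _ _ M Z hCF hZ d s hs
  have h1 := card_der M Z hCF hZ
  have h2 := card_ab M Z hCF hZ d s hs
  have h3 := Subgroup.card_eq_card_quotient_mul_card_subgroup (commutator M)
  have h4 : Nat.card (commutator M) = Nat.card (⁅M, M⁆ : Subgroup G) := by
    rw [← Subgroup.map_subtype_commutator M]
    exact (Nat.card_congr
      ((commutator M).equivMapOfInjective M.subtype M.subtype_injective).toEquiv)
  rw [h3, h4, pow_succ]
  exact Nat.mul_le_mul h2 h1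

end Pool.Agent.H47.EL
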